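import Pool.Agent.H49R2.PY.Main

/-!
# #PolyaOrbits: an exponential gap
-/

set_option autoImplicit false

namespace Pool.Agent.Y607.PY

open Pool.Agent.NPC Pool.Agent.NPC.Cnt Finset Pool.Agent.H49R2.PY

/-- numerics -/
theorem num7 (k n N : ℕ) (lm : ℝ) (hk : 2 ≤ k) (h1 : (2 : ℝ) ^ TT n N ≤ lm)
    (h2 : lm ≤ 2 ^ (TT n N + 2)) :
    (2 : ℝ) ^ N * (2 ^ n / lm + 2 ^ n * lm ^ n * rho k ^ LL k n N) ≤ 1 / 16 := by
  set T := TT n N with hT
  have hTeq : T = 3 * n + 2 * N + 20 := rfl
  set a : ℝ := 2 ^ n with ha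
  set b : ℝ := 2 ^ N with hb
  have ha1 : 1 ≤ a := one_le_pow₀ (by norm_num)
  have hb1 : 1 ≤ b := one_le_pow₀ (by norm_num)
  have hP : (2 : ℝ) ^ T = a ^ 3 * b ^ 2 * 2 ^ 20 := by
    rw [hTeq, pow_add, pow_add, ha, hb, ← pow_mul, ← pow_mul, mul_comm n 3, mul_comm N 2]
  have hPpos : (0 : ℝ) < 2 ^ T := by positivity
  have hlm : 0 < lm := hPpos.trans_le h1
  have t2 : b * (2 ^ n / lm) ≤ 1 / 2 ^ 14 := by
    have e1 : b * (2 ^ n / lm) = (b * a) / lm := by
      rw [ha]; ring
    rw [e1, div_le_iff₀ hlm]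
    have e3 : b * a ≤ a ^ 3 * b ^ 2 := by
      have e4 : a ≤ a ^ 3 := le_self_pow₀ ha1 (by norm_num)
      have e5 : b ≤ b ^ 2 := le_self_pow₀ hb1 (by norm_num)
      calc b * a = a * b := by ring
        _ ≤ a ^ 3 * b ^ 2 := mul_le_mul e4 e5 (by positivity) (by positivity)
    rw [hP] at h1
    nlinarith [e3, h1]
  have t3 : b * (2 ^ n * lm ^ n * rho k ^ LL k n N) ≤ 1 / 64 := by
    have e1 : lm ^ n ≤ (2 ^ (T + 2)) ^ n := pow_le_pow_left₀ hlm.le h2 n
    have e2 : rho k ^ LL k n N ≤ (1 / 2) ^ (n * (T + 3) + N + 12) := by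
      have e3 : LL k n N = k * (k + 1) * (k ^ 2 + 3) * (n * (T + 3) + N + 12) := rfl
      rw [e3, pow_mul]
      exact pow_le_pow_left₀ (pow_nonneg (P7aux.rho_nonneg hk) _) (P7aux.rho_pow hk) _
    have e3 : 2 ^ n * lm ^ n * rho k ^ LL k n N ≤
        2 ^ n * (2 ^ (T + 2)) ^ n * (1 / 2) ^ (n * (T + 3) + N + 12) :=
      mul_le_mul (mul_le_mul_of_nonneg_left e1 (by positivity)) e2
        (pow_nonneg (P7aux.rho_nonneg hk) _) (by positivity)
    have e4 : (2 : ℝ) ^ n * (2 ^ (T + 2)) ^ n * (1 / 2) ^ (n * (T + 3) + N + 12) =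
        1 / (b * 2 ^ 12) := by
      rw [one_div, inv_pow, ← pow_mul, ← pow_add, ← div_eq_mul_inv, one_div]
      have e5 : n * (T + 3) + N + 12 = (n + (T + 2) * n) + (N + 12) := by ring
      have e6 : (2 : ℝ) ^ (n + (T + 2) * n) ≠ 0 := by positivity
      rw [e5, pow_add (2 : ℝ) (n + (T + 2) * n) (N + 12), pow_add (2 : ℝ) N 12, hb,
        div_mul_eq_div_div, div_self e6, one_div]
    rw [e4] at e3
    have e5 : b * (2 ^ n * lm ^ n * rho k ^ LL k n N) ≤ b * (1 / (b * 2 ^ 12)) :=
      mul_le_mul_of_nonneg_left e3 (by positivity)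
    refine e5.trans ?_
    have e6 : b ≠ 0 := by positivity
    have e7 : b * (1 / (b * 2 ^ 12)) = 1 / 2 ^ 12 := by
      field_simp
    rw [e7]
    norm_num
  calc b * (2 ^ n / lm + 2 ^ n * lm ^ n * rho k ^ LL k n N)
      = b * (2 ^ n / lm) + b * (2 ^ n * lm ^ n * rho k ^ LL k n N) := by ring
    _ ≤ 1 / 2 ^ 14 + 1 / 64 := add_le_add t2 t3
    _ ≤ 1 / 16 := by norm_num

/-- Without independent sets of size `s` the partition function is small. -/
theorem empty_case (k n M N s : ℕ) (adj : ℕ → ℕ → Bool) (hk : 2 ≤ k)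
    (hs : ∀ I ∈ indF n adj, I.card ≤ s) (hl : (2 : ℝ) ^ TT n N ≤ lam k n M (LL k n N))
    (hu : lam k n M (LL k n N) ≤ 2 ^ (TT n N + 2))
    (h0 : ((indF n adj).filter (fun I => I.card = s)).card = 0) :
    15 * 2 ^ (2 * n ^ 2 * LL k n N * M) ≤ 16 * {F : Fm n M (LL k n N) |
      2 ^ N * Zt k adj F ≤ lam k n M (LL k n N) ^ s}.ncard := by
  set L := LL k n N with hL
  set K := 2 * n ^ 2 * L * M with hK
  set lm := lam k n M L with hlm
  set S : Set (Fm n M L) := {F : Fm n M L | 2 ^ N * Zt k adj F ≤ lm ^ s} with hS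
  have hlm1 : 1 ≤ lm := le_trans (one_le_pow₀ (by norm_num)) hl
  set η : ℝ := 1 / 2 ^ N with hη
  have hη0 : 0 < η := by rw [hη]; positivity
  set R : Set (Fm n M L) := {F : Fm n M L | η * lm ^ s <
      ∑ I ∈ univ.filter (fun I : Finset (Fin n) => ¬ (I ∈ indF n adj ∧ I.card = s)),
        Zp k adj I F} with hR
  have hall : univ.filter (fun I : Finset (Fin n) => ¬ (I ∈ indF n adj ∧ I.card = s)) = univ := by
    rw [Finset.filter_eq_self]
    rintro I - ⟨h1, h2⟩
    rw [Finset.card_eq_zero] at h0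
    have : I ∈ (indF n adj).filter (fun I => I.card = s) := Finset.mem_filter.2 ⟨h1, h2⟩
    rw [h0] at this
    simp at this
  have hsub : Sᶜ ⊆ R := by
    intro F hF
    have h1 : ¬ 2 ^ N * Zt k adj F ≤ lm ^ s := hF
    rw [not_le] at h1
    show η * lm ^ s < _
    rw [hall, ← P6iaux.Zt_eq, hη, one_div, inv_mul_lt_iff₀ (by positivity)]
    exact h1
  have h2K : (0 : ℝ) < 2 ^ K := by positivity
  have hRv : (R.ncard : ℝ) ≤ 2 ^ K * (2 ^ N * (2 ^ n / lm + 2 ^ n * lm ^ n * rho k ^ L)) := by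
    have h := (P4i_ok P1_ok) k n M L s adj η hk hη0 hlm1 hs
    have h' : (R.ncard : ℝ) * η ≤ 2 ^ K * (2 ^ n / lm + 2 ^ n * lm ^ n * rho k ^ L) := h
    rw [← le_div_iff₀ hη0] at h'
    refine h'.trans (le_of_eq ?_)
    rw [hη]
    field_simp
  have hnum := num7 k n N lm hk hl hu
  have hb : (Sᶜ.ncard : ℝ) ≤ (R.ncard : ℝ) := by
    exact_mod_cast Set.ncard_le_ncard hsub (Set.toFinite _)
  have htot : (Sᶜ.ncard : ℝ) ≤ 2 ^ K * (1 / 16) :=
    hb.trans (hRv.trans (mul_le_mul_of_nonneg_left hnum h2K.le))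
  have hcard : S.ncard + Sᶜ.ncard = 2 ^ K := by
    rw [Set.ncard_add_ncard_compl, Nat.card_eq_fintype_card, Pasmaux.card_Fm]
  have hcard' : (S.ncard : ℝ) + (Sᶜ.ncard : ℝ) = 2 ^ K := by exact_mod_cast hcard
  have hfin : (15 : ℝ) * 2 ^ K ≤ 16 * S.ncard := by linarith
  show 15 * 2 ^ K ≤ 16 * S.ncard
  exact_mod_cast hfin

/-- With an independent set of size `s` the partition function is large. -/
theorem full_case (k n M N s : ℕ) (adj : ℕ → ℕ → Bool) (hk : 2 ≤ k) (hN : 1 ≤ N)
    (hs : ∀ I ∈ indF n adj, I.card ≤ s) (hl : (2 : ℝ) ^ TT n N ≤ lam k n M (LL k n N))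
    (hu : lam k n M (LL k n N) ≤ 2 ^ (TT n N + 2))
    (h0 : 1 ≤ ((indF n adj).filter (fun I => I.card = s)).card) :
    15 * 2 ^ (2 * n ^ 2 * LL k n N * M) ≤ 16 * {F : Fm n M (LL k n N) |
      lam k n M (LL k n N) ^ s ≤ 2 * Zt k adj F}.ncard := by
  have h1 := P_ok k n M N s adj hk hN hs hl hu
  refine h1.trans (Nat.mul_le_mul_left _ (Set.ncard_le_ncard ?_ (Set.toFinite _)))
  rintro F ⟨h2, -⟩
  have hlm0 : 0 < lam k n M (LL k n N) := lt_of_lt_of_le (by positivity) hl
  have hN' : (1 : ℝ) ≤ N := by exact_mod_cast hN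
  have h3 : (1 : ℝ) / 2 ≤ 1 - 1 / (64 * (N : ℝ)) := by
    have : 1 / (64 * (N : ℝ)) ≤ 1 / 2 := one_div_le_one_div_of_le (by norm_num) (by linarith)
    linarith
  have h4 : (1 : ℝ) ≤ (((indF n adj).filter (fun I => I.card = s)).card : ℝ) := by
    exact_mod_cast h0
  have h5 : (1 : ℝ) / 2 * lam k n M (LL k n N) ^ s ≤
      (1 - 1 / (64 * (N : ℝ))) * (((indF n adj).filter (fun I => I.card = s)).card : ℝ) *
      lam k n M (LL k n N) ^ s := by
    refine mul_le_mul_of_nonneg_right ?_ (by positivity)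
    calc (1 : ℝ) / 2 = 1 / 2 * 1 := by ring
      _ ≤ _ := mul_le_mul h3 h4 (by norm_num) (by linarith)
  show lam k n M (LL k n N) ^ s ≤ 2 * Zt k adj F
  linarith

open Masmaux in
/-- The reduction with a gap. -/
theorem mainGap (k : ℕ) (hk : 2 ≤ k) (φ : CNF ℕ) (u : List Unit) (hu : 1 ≤ u.length) (R : ℕ)
    (hR : clF k (φ, u) ≤ R) :
    15 * 2 ^ R ≤ 16 * {r : List Bool | r.length = R ∧
      0 < polya k (instF k (φ, u, r)) ∧
      (0 < satCount φ → XX k φ u.length ≤ 2 * EE k φ u.length * polya k (instF k (φ, u, r))) ∧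
      (¬ 0 < satCount φ → 2 ^ u.length * EE k φ u.length * polya k (instF k (φ, u, r)) ≤
        XX k φ u.length)}.ncard := by
  obtain ⟨hG1, hG2⟩ := G_ok φ
  obtain ⟨hl1, hl2⟩ := Q1_ok k (vts φ).length u.length hk
  have hR' : 2 * (vts φ).length ^ 2 * LL k (vts φ).length u.length *
      MM k (vts φ).length u.length ≤ R := hR
  -- the set of good tuples of forms
  set P : Fm (vts φ).length (MM k (vts φ).length u.length) (LL k (vts φ).length u.length) → Prop :=
    fun F => (0 < satCount φ → lam k (vts φ).length (MM k (vts φ).length u.length)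
        (LL k (vts φ).length u.length) ^ (groups φ).length ≤ 2 * Zt k (adjOf (adjM φ)) F) ∧
      (¬ 0 < satCount φ → 2 ^ u.length * Zt k (adjOf (adjM φ)) F ≤
        lam k (vts φ).length (MM k (vts φ).length u.length)
        (LL k (vts φ).length u.length) ^ (groups φ).length) with hPdef
  have hPP : 15 * 2 ^ (2 * (vts φ).length ^ 2 * LL k (vts φ).length u.length *
      MM k (vts φ).length u.length) ≤ 16 * {F | P F}.ncard := by
    by_cases hsat : 0 < satCount φ
    · have h := full_case k (vts φ).length (MM k (vts φ).length u.length) u.length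
        (groups φ).length (adjOf (adjM φ)) hk hu hG1 hl1 hl2 (by rw [hG2]; exact hsat)
      refine h.trans (Nat.mul_le_mul_left _ (Set.ncard_le_ncard ?_ (Set.toFinite _)))
      intro F hF
      exact ⟨fun _ => hF, fun h => absurd hsat h⟩
    · have h := empty_case k (vts φ).length (MM k (vts φ).length u.length) u.length
        (groups φ).length (adjOf (adjM φ)) hk hG1 hl1 hl2 (by rw [hG2]; omega)
      refine h.trans (Nat.mul_le_mul_left _ (Set.ncard_le_ncard ?_ (Set.toFinite _)))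
      intro F hF
      exact ⟨fun h => absurd h hsat, fun _ => hF⟩
  have hcount := L2_ok (vts φ).length (MM k (vts φ).length u.length)
    (LL k (vts φ).length u.length) R P hR'
  have hsub : {r : List Bool | r.length = R ∧ P (FL (vts φ).length
          (MM k (vts φ).length u.length) (LL k (vts φ).length u.length) r)} ⊆
    {r : List Bool | r.length = R ∧
      0 < polya k (instF k (φ, u, r)) ∧
      (0 < satCount φ → XX k φ u.length ≤ 2 * EE k φ u.length * polya k (instF k (φ, u, r))) ∧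
      (¬ 0 < satCount φ → 2 ^ u.length * EE k φ u.length * polya k (instF k (φ, u, r)) ≤
        XX k φ u.length)} := by
    rintro r ⟨hr, hr1, hr2⟩
    obtain ⟨hlen, hrec⟩ := L3_ok (vts φ).length (MM k (vts φ).length u.length)
      (LL k (vts φ).length u.length) (adjM φ) r
    have hKK := K_ok k ((vts φ).length * MM k (vts φ).length u.length) _ hrec
    have hLL := L1_ok k (vts φ).length (MM k (vts φ).length u.length)
      (LL k (vts φ).length u.length) (adjM φ) r hk
    obtain ⟨hden, hlam⟩ := Q2_ok k (vts φ).length (LL k (vts φ).length u.length)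
      (MM k (vts φ).length u.length) hk
    have hE : 0 < EE k φ u.length := by
      unfold EE
      positivity
    have hXE : ((XX k φ u.length : ℕ) : ℝ) / (EE k φ u.length : ℕ) =
        ((k : ℝ) ^ 4 + k ^ 2) ^ (gsOf (vts φ).length (MM k (vts φ).length u.length)
          (LL k (vts φ).length u.length) (adjM φ) r).length *
        lam k (vts φ).length (MM k (vts φ).length u.length)
          (LL k (vts φ).length u.length) ^ (groups φ).length := by
      rw [hlam, hlen]
      unfold XX EE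
      push_cast
      rw [div_pow, mul_div_assoc]
    have hZ : ((polya k (instF k (φ, u, r)) : ℕ) : ℝ) =
        ((k : ℝ) ^ 4 + k ^ 2) ^ (gsOf (vts φ).length (MM k (vts φ).length u.length)
          (LL k (vts φ).length u.length) (adjM φ) r).length *
        Zt k (adjOf (adjM φ)) (FL (vts φ).length
          (MM k (vts φ).length u.length) (LL k (vts φ).length u.length) r) := by
      rw [← hLL, ← hKK]
      rfl
    have hZpos : 0 < polya k (instF k (φ, u, r)) := by
      have h1 : polya k (instF k (φ, u, r)) = _ := hKK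
      rw [h1]
      exact Zl_pos k _ hk _
    have hc0 : (0 : ℝ) ≤ ((k : ℝ) ^ 4 + k ^ 2) ^ (gsOf (vts φ).length
        (MM k (vts φ).length u.length) (LL k (vts φ).length u.length) (adjM φ) r).length := by
      positivity
    have hE' : (0 : ℝ) < ((EE k φ u.length : ℕ) : ℝ) := by exact_mod_cast hE
    rw [div_eq_iff hE'.ne'] at hXE
    refine ⟨hr, hZpos, fun hs => ?_, fun hs => ?_⟩
    · have h1 := mul_le_mul_of_nonneg_right
        (mul_le_mul_of_nonneg_left (hr1 hs) hc0) hE'.le
      rw [← hXE] at h1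
      have h2 : ((XX k φ u.length : ℕ) : ℝ) ≤
          ((2 * EE k φ u.length * polya k (instF k (φ, u, r)) : ℕ) : ℝ) := by
        push_cast
        rw [hZ]
        refine h1.trans (le_of_eq ?_)
        ring
      exact_mod_cast h2
    · have h1 := mul_le_mul_of_nonneg_right
        (mul_le_mul_of_nonneg_left (hr2 hs) hc0) hE'.le
      rw [← hXE] at h1
      have h2 : ((2 ^ u.length * EE k φ u.length * polya k (instF k (φ, u, r)) : ℕ) : ℝ) ≤
          ((XX k φ u.length : ℕ) : ℝ) := by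
        push_cast
        rw [hZ]
        refine le_trans (le_of_eq ?_) h1
        ring
      exact_mod_cast h2
  have hle := Set.ncard_le_ncard hsub
    ((List.finite_length_eq Bool R).subset fun r hr => hr.1)
  have hpos : 0 < 2 ^ (2 * (vts φ).length ^ 2 * LL k (vts φ).length u.length *
      MM k (vts φ).length u.length) := by positivity
  exact key_arith hpos hcount hPP hle

end Pool.Agent.Y607.PY
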