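import Pool.Agent.H49R2.PY.Defs

/-!
# Approximation of #PolyaOrbits within large factors: definitions

The problem (`polya k`) and FPRAS (`HasFPRAS`) are defined in `Pool/Agent/H49R2/PY/Defs.lean`.
-/

namespace Pool.Agent.Y607.PY

open Pool.Agent.NPC Pool.Agent.H49R2.PY

/-- An instance: the degree `m` in unary and a list of lists of numbers. -/
abbrev Inst : Type := List Unit × List (List ℕ)

/-- The lists are the lists of values of permutations of `[m]`, and there are at most `m` of
them. -/
def Valid (I : Inst) : Prop :=
  (∀ l ∈ I.2, ∃ σ : Equiv.Perm (Fin I.1.length), code σ = l) ∧ I.2.length ≤ I.1.length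

/-- `Z` approximates `v` within the factor `c`. -/
def Within (c Z v : ℝ) : Prop := v / c ≤ Z ∧ Z ≤ c * v

/-- `f` has a randomised polynomial-time approximation within the factor `c m`, where `m` is the
degree.  The random bits form a string `r` of length `p |I|`, where `|I|` is the length of the code
of the instance; the output is the rational number with numerator `(F (I, r)).1` and denominator
`(F (I, r)).2`, computed in time polynomial in the length of the whole input, including the random
bits.  With probability at least `3/4` the output approximates `f I` within the factor `c m`, for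
all valid instances `I` of degree `m ≥ 1`. -/
def HasApprox (f : Inst → ℕ) (c : ℕ → ℝ) : Prop :=
  ∃ (F : Inst × List Bool → ℕ × ℕ) (A : List Bool → List Bool) (p : Polynomial ℕ),
    PolyTime A ∧ (∀ s, A (bits s) = bits (F s)) ∧
    ∀ I, Valid I → 1 ≤ I.1.length → 3 * 2 ^ p.eval (bits I).length ≤
      4 * {r : List Bool | r.length = p.eval (bits I).length ∧
        Within (c I.1.length) (((F (I, r)).1 : ℝ) / (F (I, r)).2) (f I)}.ncard

/-- The factor `2 ^ (m ^ (1 - δ))`. -/
noncomputable def fac (δ : ℝ) (m : ℕ) : ℝ := 2 ^ ((m : ℝ) ^ (1 - δ))

end Pool.Agent.Y607.PY
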