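import Pool.Agent.Y607.PY.Conc
import Pool.Agent.Y607.PY.Defs

/-!
# #PolyaOrbits: the degree of the instances
-/

set_option autoImplicit false

namespace Pool.Agent.Y607.PY

open Pool.Agent.NPC Pool.Agent.NPC.Cnt Finset Pool.Agent.H49R2.PY

theorem length_flatMap_le {α β : Type} (l : List α) (f : α → List β) (c : ℕ)
    (h : ∀ x ∈ l, (f x).length ≤ c) : (l.flatMap f).length ≤ l.length * c := by
  induction l with
  | nil => simp
  | cons a l ih =>
    have h1 := ih (fun x hx => h x (by simp [hx]))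
    have h2 := h a (by simp)
    rw [List.flatMap_cons, List.length_append, List.length_cons]
    calc (f a).length + (l.flatMap f).length ≤ c + l.length * c := Nat.add_le_add h2 h1
      _ = (l.length + 1) * c := by ring

theorem gs_le (n M L : ℕ) (A : List (List Bool)) (r : List Bool) :
    (gsOf n M L A r).length ≤ n * M + 2 * n ^ 2 * L := by
  unfold gsOf
  rw [List.length_append, List.length_map, List.length_range]
  refine Nat.add_le_add_left ?_ _
  have h1 : ∀ u ∈ List.range n, ((List.range n).flatMap (fun v =>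
    (List.range L).flatMap (fun i =>
      if adjOf A u v = true then
        [(bvec M (u * M) r (2 * ((u * n + v) * L + i)),
          bvec M (v * M) r (2 * ((u * n + v) * L + i) + 1))]
      else
        [(bvec M (u * M) r (2 * ((u * n + v) * L + i)), []),
          ([], bvec M (v * M) r (2 * ((u * n + v) * L + i) + 1))]))).length ≤ n * (L * 2) := by
    intro u _
    refine (length_flatMap_le _ _ (L * 2) fun v _ => ?_).trans (le_of_eq (by
      rw [List.length_range]))
    refine (length_flatMap_le _ _ 2 fun i _ => ?_).trans (le_of_eq (by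
      rw [List.length_range]))
    split_ifs <;> simp
  refine (length_flatMap_le _ _ _ h1).trans (le_of_eq ?_)
  rw [List.length_range]
  ring

theorem gs_pos (n M L : ℕ) (A : List (List Bool)) (r : List Bool) (hn : 1 ≤ n) (hL : 1 ≤ L) :
    1 ≤ (gsOf n M L A r).length := by
  have h : ∃ x, x ∈ gsOf n M L A r := by
    by_cases hA : adjOf A 0 0 = true
    · refine ⟨(bvec M (0 * M) r (2 * ((0 * n + 0) * L + 0)),
          bvec M (0 * M) r (2 * ((0 * n + 0) * L + 0) + 1)), List.mem_append_right _ ?_⟩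
      refine List.mem_flatMap.2 ⟨0, List.mem_range.2 hn, List.mem_flatMap.2
        ⟨0, List.mem_range.2 hn, List.mem_flatMap.2 ⟨0, List.mem_range.2 hL, ?_⟩⟩⟩
      rw [if_pos hA]
      exact List.mem_cons_self
    · refine ⟨(bvec M (0 * M) r (2 * ((0 * n + 0) * L + 0)), []), List.mem_append_right _ ?_⟩
      refine List.mem_flatMap.2 ⟨0, List.mem_range.2 hn, List.mem_flatMap.2
        ⟨0, List.mem_range.2 hn, List.mem_flatMap.2 ⟨0, List.mem_range.2 hL, ?_⟩⟩⟩
      rw [if_neg hA]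
      exact List.mem_cons_self
  obtain ⟨x, hx⟩ := h
  exact List.length_pos_of_mem hx

/-- coefficient of `LL` -/
def Lc (k n : ℕ) : ℕ := k * (k + 1) * (k ^ 2 + 3) * (n * (3 * n + 23) + 13)

/-- coefficient of `MM` -/
def Mc (k n : ℕ) : ℕ := k * (3 * n + 24 + 2 * n * Lc k n) + 1

/-- coefficient of the degree -/
def Qc (k n : ℕ) : ℕ := 4 * (n * Mc k n + 2 * n ^ 2 * Lc k n)

theorem TT_le (n N : ℕ) : TT n N + 3 ≤ (3 * n + 23) * (N + 1) := by
  unfold TT
  nlinarith [Nat.zero_le (n * N)]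

theorem LL_le (k n N : ℕ) : LL k n N ≤ Lc k n * (N + 1) := by
  unfold LL Lc
  rw [mul_assoc (k * (k + 1) * (k ^ 2 + 3))]
  refine Nat.mul_le_mul_left _ ?_
  have h := Nat.mul_le_mul_left n (TT_le n N)
  calc n * (TT n N + 3) + N + 12 ≤ n * ((3 * n + 23) * (N + 1)) + N + 12 := by omega
    _ ≤ n * ((3 * n + 23) * (N + 1)) + 13 * (N + 1) := by omega
    _ = (n * (3 * n + 23) + 13) * (N + 1) := by ring

theorem MM_le (k n N : ℕ) : MM k n N ≤ Mc k n * (N + 1) := by
  have h0 : MM k n N ≤ k * (TT n N + 2 * n * LL k n N + 1) + 1 := by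
    unfold MM
    refine (List.length_filter_le _ _).trans (le_of_eq ?_)
    rw [List.length_range]
  have h1 := TT_le n N
  have h2 := Nat.mul_le_mul_left (2 * n) (LL_le k n N)
  have h3 : TT n N + 2 * n * LL k n N + 1 ≤ (3 * n + 24 + 2 * n * Lc k n) * (N + 1) := by
    calc TT n N + 2 * n * LL k n N + 1 ≤
        (3 * n + 23) * (N + 1) + 2 * n * (Lc k n * (N + 1)) := by omega
      _ ≤ (3 * n + 24 + 2 * n * Lc k n) * (N + 1) := by
        nlinarith
  refine h0.trans ?_
  unfold Mc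
  calc k * (TT n N + 2 * n * LL k n N + 1) + 1 ≤
      k * ((3 * n + 24 + 2 * n * Lc k n) * (N + 1)) + 1 :=
        Nat.add_le_add_right (Nat.mul_le_mul_left _ h3) _
    _ ≤ (k * (3 * n + 24 + 2 * n * Lc k n) + 1) * (N + 1) := by
        have e : (k * (3 * n + 24 + 2 * n * Lc k n) + 1) * (N + 1) =
            k * ((3 * n + 24 + 2 * n * Lc k n) * (N + 1)) + (N + 1) := by ring
        rw [e]
        exact Nat.add_le_add_left (Nat.succ_le_succ (Nat.zero_le _)) _

theorem deg_eq (k : ℕ) (φ : CNF ℕ) (u : List Unit) (r : List Bool) :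
    (instF k (φ, u, r)).1.length = 4 * (gsOf (vts φ).length (MM k (vts φ).length u.length)
      (LL k (vts φ).length u.length) (adjM φ) r).length := by
  unfold instF instOf
  rw [List.length_replicate]

theorem deg_le (k : ℕ) (φ : CNF ℕ) (u : List Unit) (r : List Bool) :
    (instF k (φ, u, r)).1.length ≤ Qc k (vts φ).length * (u.length + 1) := by
  rw [deg_eq]
  have h1 := gs_le (vts φ).length (MM k (vts φ).length u.length)
      (LL k (vts φ).length u.length) (adjM φ) r
  have h2 := Nat.mul_le_mul_left (vts φ).length (MM_le k (vts φ).length u.length)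
  have h3 := Nat.mul_le_mul_left (2 * (vts φ).length ^ 2) (LL_le k (vts φ).length u.length)
  unfold Qc
  calc 4 * (gsOf (vts φ).length (MM k (vts φ).length u.length)
      (LL k (vts φ).length u.length) (adjM φ) r).length ≤
      4 * ((vts φ).length * (Mc k (vts φ).length * (u.length + 1)) +
        2 * (vts φ).length ^ 2 * (Lc k (vts φ).length * (u.length + 1))) := by omega
    _ = _ := by ring

theorem deg_pos (k : ℕ) (hk : 2 ≤ k) (φ : CNF ℕ) (u : List Unit) (r : List Bool)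
    (hn : 1 ≤ (vts φ).length) : 1 ≤ (instF k (φ, u, r)).1.length := by
  rw [deg_eq]
  have hL : 1 ≤ LL k (vts φ).length u.length := by
    unfold LL
    have h1 : 1 ≤ k * (k + 1) * (k ^ 2 + 3) :=
      Nat.mul_pos (Nat.mul_pos (by omega) (Nat.succ_pos _)) (Nat.succ_pos _)
    exact Nat.mul_pos h1 (by omega)
  have := gs_pos (vts φ).length (MM k (vts φ).length u.length)
      (LL k (vts φ).length u.length) (adjM φ) r hn hL
  omega

/-! ### Parameters -/

/-- the base -/
def Pb (k n : ℕ) : ℕ := 7 * Qc k n + 1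

/-- the exponent of the factor -/
def N1 (k K n : ℕ) : ℕ := Pb k n ^ (K + 1)

/-- the accuracy parameter -/
def N2 (k K n : ℕ) : ℕ := 2 * N1 k K n + 4

theorem one_le_N1 (k K n : ℕ) : 1 ≤ N1 k K n := Nat.one_le_pow _ _ (by unfold Pb; omega)

/-- the list of units -/
def un (k K : ℕ) (φ : CNF ℕ) : List Unit := List.replicate (N2 k K (vts φ).length) ()

theorem un_len (k K : ℕ) (φ : CNF ℕ) : (un k K φ).length = N2 k K (vts φ).length := by
  unfold un
  rw [List.length_replicate]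

theorem deg_le' (k K : ℕ) (φ : CNF ℕ) (r : List Bool) :
    (instF k (φ, un k K φ, r)).1.length ≤ Pb k (vts φ).length ^ (K + 2) := by
  have h1 := deg_le k φ (un k K φ) r
  rw [un_len] at h1
  have h2 := one_le_N1 k K (vts φ).length
  have h3 : Pb k (vts φ).length ^ (K + 2) = Pb k (vts φ).length * N1 k K (vts φ).length := by
    unfold N1
    rw [pow_succ _ (K + 1)]
    ring
  rw [h3]
  refine h1.trans ?_
  have h4 : N2 k K (vts φ).length + 1 ≤ 7 * N1 k K (vts φ).length := by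
    unfold N2
    omega
  calc Qc k (vts φ).length * (N2 k K (vts φ).length + 1) ≤
      Qc k (vts φ).length * (7 * N1 k K (vts φ).length) := Nat.mul_le_mul_left _ h4
    _ ≤ Pb k (vts φ).length * N1 k K (vts φ).length := by
        unfold Pb
        nlinarith [Nat.zero_le (N1 k K (vts φ).length)]

theorem rpow_gen (P K m : ℕ) (hP : 1 ≤ P) (hm : m ≤ P ^ (K + 2)) (δ : ℝ)
    (hK : 1 ≤ δ * ((K : ℝ) + 2)) (hδ : δ ≤ 1) : (m : ℝ) ^ (1 - δ) ≤ ((P ^ (K + 1) : ℕ) : ℝ) := by
  have hM1 : (1 : ℝ) ≤ (P : ℝ) := by exact_mod_cast hP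
  have h1 : (m : ℝ) ≤ (P : ℝ) ^ (K + 2) := by exact_mod_cast hm
  have h2 : (m : ℝ) ^ (1 - δ) ≤ ((P : ℝ) ^ (K + 2)) ^ (1 - δ) :=
    Real.rpow_le_rpow (Nat.cast_nonneg _) h1 (by linarith)
  have h : ((P : ℝ) ^ (K + 2)) ^ (1 - δ) = (P : ℝ) ^ (((K : ℝ) + 2) * (1 - δ)) := by
    have h1 : ((K : ℝ) + 2) = ((K + 2 : ℕ) : ℝ) := by push_cast; ring
    rw [Real.rpow_mul (by linarith), h1, Real.rpow_natCast]
  rw [h] at h2
  have h3 : (P : ℝ) ^ (((K : ℝ) + 2) * (1 - δ)) ≤ (P : ℝ) ^ ((K : ℝ) + 1) := by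
    refine Real.rpow_le_rpow_of_exponent_le hM1 ?_
    nlinarith
  have h4 : (P : ℝ) ^ ((K : ℝ) + 1) = ((P ^ (K + 1) : ℕ) : ℝ) := by
    have h5 : ((K : ℝ) + 1) = ((K + 1 : ℕ) : ℝ) := by push_cast; ring
    rw [h5, Real.rpow_natCast]
    push_cast
    ring
  rw [h4] at h3
  exact h2.trans h3

theorem fac_pos (δ : ℝ) (n : ℕ) : 0 < fac δ n := Real.rpow_pos_of_pos (by norm_num) _

theorem fac_le (k K : ℕ) (δ : ℝ) (hK : 1 ≤ δ * ((K : ℝ) + 2)) (hδ : δ ≤ 1) (φ : CNF ℕ)
    (r : List Bool) :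
    fac δ (instF k (φ, un k K φ, r)).1.length ≤ 2 ^ N1 k K (vts φ).length := by
  unfold fac
  have h1 := rpow_gen (Pb k (vts φ).length) K _ (by unfold Pb; omega) (deg_le' k K φ r) δ hK hδ
  have h2 : (2 : ℝ) ^ (((instF k (φ, un k K φ, r)).1.length : ℝ) ^ (1 - δ)) ≤
      (2 : ℝ) ^ ((Pb k (vts φ).length ^ (K + 1) : ℕ) : ℝ) :=
    Real.rpow_le_rpow_of_exponent_le (by norm_num) h1
  rw [Real.rpow_natCast] at h2
  exact h2

theorem exK (δ : ℝ) (h0 : 0 < δ) : ∃ K : ℕ, 1 ≤ δ * ((K : ℝ) + 2) := by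
  obtain ⟨K, hK⟩ := exists_nat_ge (1 / δ)
  refine ⟨K, ?_⟩
  have h1 : 1 ≤ δ * K := by
    have h2 := mul_le_mul_of_nonneg_left hK h0.le
    rwa [mul_one_div, div_self h0.ne'] at h2
  nlinarith

/-! ### Polynomial time -/

theorem upoly_Lc (k : ℕ) {α : Type} [TEnc α] {n : α → ℕ} (hn : UPoly n) :
    UPoly (fun a => Lc k (n a)) := by
  unfold Lc
  exact UPoly.mul (UPoly.const _) (UPoly.add (UPoly.mul hn (UPoly.add
    (UPoly.mul (UPoly.const 3) hn) (UPoly.const 23))) (UPoly.const 13))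

theorem upoly_Mc (k : ℕ) {α : Type} [TEnc α] {n : α → ℕ} (hn : UPoly n) :
    UPoly (fun a => Mc k (n a)) := by
  unfold Mc
  exact UPoly.add (UPoly.mul (UPoly.const k) (UPoly.add (UPoly.add
    (UPoly.mul (UPoly.const 3) hn) (UPoly.const 24))
    (UPoly.mul (UPoly.mul (UPoly.const 2) hn) (upoly_Lc k hn)))) (UPoly.const 1)

theorem upoly_Qc (k : ℕ) {α : Type} [TEnc α] {n : α → ℕ} (hn : UPoly n) :
    UPoly (fun a => Qc k (n a)) := by
  have h2 : UPoly (fun a => n a ^ 2) := by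
    have := UPoly.mul hn hn
    have e : (fun a => n a * n a) = fun a => n a ^ 2 := by
      funext a
      ring
    rwa [e] at this
  unfold Qc
  exact UPoly.mul (UPoly.const 4) (UPoly.add (UPoly.mul hn (upoly_Mc k hn))
    (UPoly.mul (UPoly.mul (UPoly.const 2) h2) (upoly_Lc k hn)))

theorem upoly_N1 (k K : ℕ) {α : Type} [TEnc α] {n : α → ℕ} (hn : UPoly n) :
    UPoly (fun a => N1 k K (n a)) := by
  have h1 : UPoly (fun a => Pb k (n a)) := by
    unfold Pb
    exact UPoly.add (UPoly.mul (UPoly.const 7) (upoly_Qc k hn)) (UPoly.const 1)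
  have h2 := UPoly.eval h1 (Polynomial.X ^ (K + 1))
  have e : (fun a => (Polynomial.X ^ (K + 1) : Polynomial ℕ).eval (Pb k (n a))) =
      fun a => N1 k K (n a) := by
    funext a
    rw [Polynomial.eval_pow, Polynomial.eval_X]
    rfl
  rw [e] at h2
  exact h2

theorem upoly_N2 (k K : ℕ) {α : Type} [TEnc α] {n : α → ℕ} (hn : UPoly n) :
    UPoly (fun a => N2 k K (n a)) := by
  unfold N2
  exact UPoly.add (UPoly.mul (UPoly.const 2) (upoly_N1 k K hn)) (UPoly.const 4)

theorem upoly_vts {α : Type} [TEnc α] {φ : α → CNF ℕ} (hφ : NPC.Poly φ) :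
    UPoly (fun a => (vts (φ a)).length) := UPoly.length (Y1_ok.2.1.comp hφ)

theorem poly_un (k K : ℕ) : NPC.Poly (fun φ : CNF ℕ => un k K φ) :=
  upoly_N2 k K (upoly_vts NPC.Poly.id)

end Pool.Agent.Y607.PY
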