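import Pool.Agent.Y607.PY.Deg

/-!
# #PolyaOrbits within large factors: the theorem
-/

set_option autoImplicit false

namespace Pool.Agent.Y607.PY

open Pool.Agent.NPC Pool.Agent.NPC.Cnt Finset Pool.Agent.H49R2 Pool.Agent.H49R2.PY
open Pool.Agent.H579R2.Spt (isPre isPre_iff isPre_poly ver ver_iff ver_poly bits_poly InRP)

theorem valid_of_pos {k : ℕ} {I : Inst} (h : 0 < polya k I) : Valid I := by
  unfold polya at h
  by_contra hn
  unfold Valid at hn
  rw [if_neg hn] at h
  exact lt_irrefl _ h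

theorem sat_zero (φ : CNF ℕ) (hn : (vts φ).length = 0) :
    0 < satCount φ ↔ (groups φ).length = 0 := by
  obtain ⟨-, hG2⟩ := G_ok φ
  constructor
  · intro h
    rw [← hG2] at h
    obtain ⟨I, hI⟩ := Finset.card_pos.1 h
    have h1 := (Finset.mem_filter.1 hI).2
    have h2 : I.card ≤ (vts φ).length := by
      have := Finset.card_le_univ I
      simpa using this
    omega
  · intro h
    rw [← hG2]
    refine Finset.card_pos.2 ⟨∅, Finset.mem_filter.2 ⟨?_, ?_⟩⟩
    · unfold indF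
      simp
    · rw [h]
      simp

/-- Approximations decide satisfiability. -/
theorem decides {c v X E : ℝ} {N1 u : ℕ} {a b : ℕ} (hc0 : 0 < c) (hc : c ≤ 2 ^ N1)
    (hu : u = 2 * N1 + 4) (hv : 0 < v) (hE : 0 < E) (sat : Prop)
    (h1 : sat → X ≤ 2 * E * v) (h2 : ¬ sat → 2 ^ u * E * v ≤ X)
    (h : Within c ((a : ℝ) / b) v) :
    (0 < b ∧ (b : ℝ) * X ≤ 2 * 2 ^ N1 * E * a) ↔ sat := by
  obtain ⟨h3, h4⟩ := h
  have hp : (0 : ℝ) < 2 ^ N1 := by positivity
  have h2u : (2 : ℝ) ^ u = 16 * (2 ^ N1 * 2 ^ N1) := by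
    rw [hu, pow_add, two_mul, pow_add]
    ring
  constructor
  · rintro ⟨hb, hba⟩
    by_contra hs
    have h5 := h2 hs
    rw [h2u] at h5
    have hb' : (0 : ℝ) < b := by exact_mod_cast hb
    have h6 : X ≤ 2 * 2 ^ N1 * E * ((a : ℝ) / b) := by
      rw [mul_div_assoc', le_div_iff₀ hb']
      linarith
    have h7 : (a : ℝ) / b ≤ 2 ^ N1 * v := h4.trans (mul_le_mul_of_nonneg_right hc hv.le)
    have h8 : 2 * 2 ^ N1 * E * ((a : ℝ) / b) ≤ 2 * 2 ^ N1 * E * (2 ^ N1 * v) :=
      mul_le_mul_of_nonneg_left h7 (by positivity)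
    have h9 : (0 : ℝ) < (2 ^ N1 * 2 ^ N1) * E * v := by positivity
    have h10 : 2 * 2 ^ N1 * E * (2 ^ N1 * v) = 2 * ((2 ^ N1 * 2 ^ N1) * E * v) := by ring
    have h11 : 16 * (2 ^ N1 * 2 ^ N1) * E * v = 16 * ((2 ^ N1 * 2 ^ N1) * E * v) := by ring
    rw [h10] at h8
    rw [h11] at h5
    linarith
  · intro hs
    have h5 := h1 hs
    have hb : 0 < b := by
      rcases Nat.eq_zero_or_pos b with hb | hb
      · subst hb
        simp only [Nat.cast_zero, div_zero] at h3
        have : 0 < v / c := div_pos hv hc0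
        linarith
      · exact hb
    have hb' : (0 : ℝ) < b := by exact_mod_cast hb
    refine ⟨hb, ?_⟩
    have h6 : v ≤ 2 ^ N1 * ((a : ℝ) / b) := by
      calc v = c * (v / c) := by field_simp
        _ ≤ 2 ^ N1 * ((a : ℝ) / b) := mul_le_mul hc h3 (div_nonneg hv.le hc0.le) hp.le
    have h7 : 2 * E * v ≤ 2 * E * (2 ^ N1 * ((a : ℝ) / b)) :=
      mul_le_mul_of_nonneg_left h6 (by positivity)
    have h8 : X ≤ 2 * 2 ^ N1 * E * ((a : ℝ) / b) := by
      refine (h5.trans h7).trans (le_of_eq (by ring))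
    rw [mul_div_assoc', le_div_iff₀ hb'] at h8
    linarith

theorem EE_pos (k : ℕ) (hk : 2 ≤ k) (φ : CNF ℕ) (N : ℕ) : 0 < EE k φ N := by
  obtain ⟨hden, -⟩ := Q2_ok k (vts φ).length (LL k (vts φ).length N)
      (MM k (vts φ).length N) hk
  unfold EE
  positivity

theorem poly_inst (k K : ℕ) :
    NPC.Poly (fun s : CNF ℕ × List Bool => instF k (s.1, un k K s.1, s.2)) :=
  (Y_ok k).1.comp (NPC.Poly.pair (NPC.Poly.fst NPC.Poly.id)
    (NPC.Poly.pair ((poly_un k K).comp (NPC.Poly.fst NPC.Poly.id)) (NPC.Poly.snd NPC.Poly.id)))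

theorem upoly_cl (k K : ℕ) : UPoly (fun φ : CNF ℕ => clF k (φ, un k K φ)) :=
  (Y_ok k).2.1.comp (NPC.Poly.pair NPC.Poly.id (poly_un k K))

theorem upoly_unlen (k K : ℕ) : UPoly (fun φ : CNF ℕ => (un k K φ).length) :=
  UPoly.length (poly_un k K)

theorem poly_X (k K : ℕ) : NPC.Poly (fun φ : CNF ℕ => XX k φ (un k K φ).length) :=
  Yasmaux.polyXX Y1_ok Y3_ok (Y4_ok (Y5_ok Y6_ok) Y6_ok) (Y5_ok Y6_ok) Y6_ok k NPC.Poly.id
    (upoly_unlen k K)

theorem poly_E (k K : ℕ) : NPC.Poly (fun φ : CNF ℕ => EE k φ (un k K φ).length) :=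
  Yasmaux.polyEE Y1_ok (Y4_ok (Y5_ok Y6_ok) Y6_ok) (Y5_ok Y6_ok) Y6_ok k NPC.Poly.id
    (upoly_unlen k K)

theorem poly_two (k K : ℕ) : NPC.Poly (fun φ : CNF ℕ => 2 ^ N1 k K (vts φ).length) :=
  Y6_ok _ _ _ (NPC.Poly.const 2) (upoly_N1 k K (upoly_vts NPC.Poly.id))

theorem one_le_un (k K : ℕ) (φ : CNF ℕ) : 1 ≤ (un k K φ).length := by
  rw [un_len]
  unfold N2
  omega

/-- The threshold test. -/
def tst (k K : ℕ) (φ : CNF ℕ) (a b : ℕ) : Bool :=
  if (vts φ).length = 0 then decide ((groups φ).length = 0)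
  else decide (0 < b) && decide (b * XX k φ (un k K φ).length ≤
    2 * 2 ^ N1 k K (vts φ).length * EE k φ (un k K φ).length * a)

theorem poly_tst (k K : ℕ) {α : Type} [TEnc α] {φ : α → CNF ℕ} {a b : α → ℕ}
    (hφ : NPC.Poly φ) (ha : NPC.Poly a) (hb : NPC.Poly b) :
    NPC.Poly (fun s => tst k K (φ s) (a s) (b s)) := by
  unfold tst
  exact NPC.Poly.ite (NPC.Poly.decide_eq (upoly_vts hφ).toPoly (NPC.Poly.const 0))
    (NPC.Poly.decide_eq (UPoly.length (Y1_ok.1.comp hφ)).toPoly (NPC.Poly.const 0))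
    (NPC.Poly.and (NPC.Poly.decide_lt (NPC.Poly.const 0) hb)
      (NPC.Poly.decide_le (NPC.Poly.mul hb ((poly_X k K).comp hφ))
        (NPC.Poly.mul (NPC.Poly.mul (NPC.Poly.mul (NPC.Poly.const 2) ((poly_two k K).comp hφ))
          ((poly_E k K).comp hφ)) ha)))

open R1aux in
/-- From an approximation and a reduction with a gap to a randomised test (general form). -/
theorem randSat_gen (f : Inst → ℕ) (c : ℕ → ℝ) (inst : CNF ℕ × List Bool → Inst)
    (c0 : CNF ℕ → ℕ) (ts : CNF ℕ → ℕ → ℕ → Bool) (hinst : NPC.Poly inst) (hc0 : UPoly c0)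
    (hts : NPC.Poly (fun s : CNF ℕ × ℕ × ℕ => ts s.1 s.2.1 s.2.2)) (Triv : CNF ℕ → Prop)
    (h0 : ∀ φ, Triv φ → ∀ a b, (ts φ a b = true ↔ 0 < satCount φ))
    (h1 : ∀ φ, ¬ Triv φ → 15 * 2 ^ c0 φ ≤ 16 * {r : List Bool | r.length = c0 φ ∧
      (Valid (inst (φ, r)) ∧ 1 ≤ (inst (φ, r)).1.length ∧
        ∀ a b : ℕ, Within (c (inst (φ, r)).1.length) ((a : ℝ) / b) (f (inst (φ, r))) →
          (ts φ a b = true ↔ 0 < satCount φ))}.ncard)
    (hF : HasApprox f c) : RandSat0 := by
  obtain ⟨F, A, p, hA, hAF, hF⟩ := hF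
  have hFp : NPC.Poly F := poly_of_machine hA hAF (0, 0)
  obtain ⟨q, hq⟩ := hinst.sz_le
  let xx : CNF ℕ × List Bool → Inst := fun s => inst (s.1, s.2.take (c0 s.1))
  have htake : NPC.Poly (fun s : CNF ℕ × List Bool => s.2.take (c0 s.1)) :=
    Pool.Agent.H579R2.Spt.take_poly' (NPC.Poly.snd NPC.Poly.id)
      (hc0.comp (NPC.Poly.fst NPC.Poly.id)).toPoly
  have hxx : NPC.Poly xx := hinst.comp (NPC.Poly.pair (NPC.Poly.fst NPC.Poly.id) htake)
  have hxlen : ∀ s, (bits (xx s)).length ≤ q.eval (sz s.1 + 4 * c0 s.1 + 6) := by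
    intro s
    rw [bits_length]
    refine (hq (s.1, s.2.take (c0 s.1))).trans (eval_mono q ?_)
    have h1 := sz_listBool_le (s.2.take (c0 s.1))
    have h2 : (s.2.take (c0 s.1)).length ≤ c0 s.1 := by
      rw [List.length_take]; exact min_le_left _ _
    simp only [sz_pair]
    omega
  let LL1 : CNF ℕ × List Bool → ℕ := fun s => p.eval (bits (xx s)).length
  let coins : CNF ℕ × List Bool → List Bool := fun s => (s.2.drop (c0 s.1)).take (LL1 s)
  have hLL1 : UPoly LL1 := (UPoly.length (bits_poly.comp hxx)).eval p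
  have hcoins : NPC.Poly coins := Pool.Agent.H579R2.Spt.take_poly'
    (Pool.Agent.H579R2.Spt.drop_poly' (NPC.Poly.snd NPC.Poly.id)
      (hc0.comp (NPC.Poly.fst NPC.Poly.id)).toPoly) hLL1.toPoly
  let ab : CNF ℕ × List Bool → ℕ × ℕ := fun s => F (xx s, coins s)
  have hab : NPC.Poly ab := hFp.comp (NPC.Poly.pair hxx hcoins)
  let D : CNF ℕ × List Bool → Bool := fun s => ts s.1 (ab s).1 (ab s).2
  have hD : NPC.Poly D := hts.comp (NPC.Poly.pair (NPC.Poly.fst NPC.Poly.id)
    (NPC.Poly.pair (NPC.Poly.fst hab) (NPC.Poly.snd hab)))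
  have hsz : UPoly (fun φ : CNF ℕ => sz φ) := by
    have h1 : UPoly (fun φ : CNF ℕ => (bits φ).length) := UPoly.length bits_poly
    have h2 : (fun φ : CNF ℕ => (bits φ).length) = fun φ : CNF ℕ => sz φ := by
      funext φ
      exact bits_length φ
    rwa [h2] at h1
  refine ⟨D, fun φ => c0 φ + p.eval (q.eval (sz φ + 4 * c0 φ + 6)), hD,
    hc0.add ((((hsz.add ((UPoly.const 4).mul hc0)).add (UPoly.const 6)).eval q).eval p), ?_⟩
  intro φ R hR
  have hR' : c0 φ + p.eval (q.eval (sz φ + 4 * c0 φ + 6)) ≤ R := hR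
  by_cases hn : Triv φ
  · have hE : {r : List Bool | r.length = R ∧ ¬ (D (φ, r) = true ↔ 0 < satCount φ)} = ∅ := by
      ext r
      simp only [Set.mem_setOf_eq, Set.mem_empty_iff_false, iff_false, not_and, not_not]
      intro _
      exact h0 φ hn _ _
    rw [hE, Set.ncard_empty]
    simp
  · refine count (a := c0 φ) (R := R)
      (fun r => Valid (inst (φ, r)) ∧ 1 ≤ (inst (φ, r)).1.length ∧
        ∀ a b : ℕ, Within (c (inst (φ, r)).1.length) ((a : ℝ) / b) (f (inst (φ, r))) →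
          (ts φ a b = true ↔ 0 < satCount φ))
      (fun r1 => p.eval (bits (inst (φ, r1))).length)
      (fun r1 s => (Valid (inst (φ, r1)) ∧ 1 ≤ (inst (φ, r1)).1.length) →
        Within (c (inst (φ, r1)).1.length)
        (((F (inst (φ, r1), s)).1 : ℝ) / (F (inst (φ, r1), s)).2) (f (inst (φ, r1))))
      (fun r => ¬ (D (φ, r) = true ↔ 0 < satCount φ)) (by omega) (h1 φ hn) ?_ ?_ ?_
    · intro r1 hr1
      have h1 := hxlen (φ, r1)
      have h2 : xx (φ, r1) = inst (φ, r1) := by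
        show inst (φ, r1.take (c0 φ)) = _
        rw [List.take_of_length_le hr1.le]
      rw [h2] at h1
      exact (Nat.add_le_add_left (eval_mono p h1) _).trans hR'
    · intro r1 _
      by_cases hp : Valid (inst (φ, r1)) ∧ 1 ≤ (inst (φ, r1)).1.length
      · have h1 := hF (inst (φ, r1)) hp.1 hp.2
        simp only [hp, true_implies, and_self]
        exact h1
      · have h2 : {r : List Bool | r.length = p.eval (bits (inst (φ, r1))).length ∧
            ((Valid (inst (φ, r1)) ∧ 1 ≤ (inst (φ, r1)).1.length) →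
              Within (c (inst (φ, r1)).1.length)
              (((F (inst (φ, r1), r)).1 : ℝ) / (F (inst (φ, r1), r)).2) (f (inst (φ, r1))))} =
            ↑(BL (p.eval (bits (inst (φ, r1))).length)) := by
          ext r
          rw [Finset.mem_coe, mem_BL]
          exact ⟨fun h => h.1, fun h => ⟨h, fun h' => absurd h' hp⟩⟩
        rw [h2, Set.ncard_coe_finset, card_BL]
        omega
    · intro r hr hg1 hg2
      rw [not_not]
      obtain ⟨hv, hd, hg3⟩ := hg1
      exact hg3 _ _ (hg2 ⟨hv, hd⟩)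

attribute [local irreducible] un instF N1 N2 XX EE tst clF polya vts groups

/-- The good event of the reduction. -/
theorem good_event (k : ℕ) (hk : 2 ≤ k) (K : ℕ) (δ : ℝ) (hK : 1 ≤ δ * ((K : ℝ) + 2)) (hδ : δ ≤ 1)
    (φ : CNF ℕ) (hn : ¬ (vts φ).length = 0) :
    15 * 2 ^ clF k (φ, un k K φ) ≤ 16 * {r : List Bool | r.length = clF k (φ, un k K φ) ∧
      (Valid (instF k (φ, un k K φ, r)) ∧ 1 ≤ (instF k (φ, un k K φ, r)).1.length ∧
        ∀ a b : ℕ, Within (fac δ (instF k (φ, un k K φ, r)).1.length) ((a : ℝ) / b)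
          (polya k (instF k (φ, un k K φ, r))) →
          (tst k K φ a b = true ↔ 0 < satCount φ))}.ncard := by
  have hm := mainGap k hk φ (un k K φ) (one_le_un k K φ) (clF k (φ, un k K φ)) le_rfl
  refine hm.trans (Nat.mul_le_mul_left _ (Set.ncard_le_ncard ?_
    ((List.finite_length_eq Bool _).subset fun r hr => hr.1)))
  rintro r ⟨hr, hp, hg3, hg4⟩
  refine ⟨hr, valid_of_pos hp, deg_pos k hk φ (un k K φ) r (Nat.one_le_iff_ne_zero.2 hn), ?_⟩
  intro a b hab
  have h6 := decides (c := fac δ (instF k (φ, un k K φ, r)).1.length)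
    (v := ((polya k (instF k (φ, un k K φ, r)) : ℕ) : ℝ))
    (X := ((XX k φ (un k K φ).length : ℕ) : ℝ)) (E := ((EE k φ (un k K φ).length : ℕ) : ℝ))
    (N1 := N1 k K (vts φ).length) (u := (un k K φ).length)
    (fac_pos δ _) (fac_le k K δ hK hδ φ _) (by rw [un_len]; unfold N2; rfl) (by exact_mod_cast hp)
    (by exact_mod_cast EE_pos k hk φ _) (0 < satCount φ)
    (fun hs => by exact_mod_cast hg3 hs) (fun hs => by exact_mod_cast hg4 hs) hab
  rw [← h6]
  unfold tst
  rw [if_neg hn, Bool.and_eq_true, decide_eq_true_iff, decide_eq_true_iff]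
  refine and_congr Iff.rfl ?_
  constructor
  · intro h
    exact_mod_cast h
  · intro h
    exact_mod_cast h

theorem tst_triv (k K : ℕ) (φ : CNF ℕ) (hn : (vts φ).length = 0) (a b : ℕ) :
    tst k K φ a b = true ↔ 0 < satCount φ := by
  unfold tst
  rw [if_pos hn, decide_eq_true_iff, sat_zero φ hn]

theorem randSat (k : ℕ) (hk : 2 ≤ k) (K : ℕ) (δ : ℝ) (hK : 1 ≤ δ * ((K : ℝ) + 2)) (hδ : δ ≤ 1)
    (hF : HasApprox (polya k) (fac δ)) : RandSat0 :=
  randSat_gen (polya k) (fac δ) (fun s => instF k (s.1, un k K s.1, s.2))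
    (fun φ => clF k (φ, un k K φ)) (tst k K) (poly_inst k K) (upoly_cl k K)
    (poly_tst k K (NPC.Poly.fst NPC.Poly.id) (NPC.Poly.fst (NPC.Poly.snd NPC.Poly.id))
      (NPC.Poly.snd (NPC.Poly.snd NPC.Poly.id)))
    (fun φ => (vts φ).length = 0) (fun φ hn a b => tst_triv k K φ hn a b)
    (fun φ hn => good_event k hk K δ hK hδ φ hn) hF

theorem rp_eq_np (k : ℕ) (hk : 2 ≤ k) (δ : ℝ) (h0 : 0 < δ) (h1 : δ ≤ 1)
    (hF : HasApprox (polya k) (fac δ)) : ∀ L : Set (List Bool), InRP L ↔ InNP L := by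
  obtain ⟨K, hK⟩ := exK δ h0
  exact fun L => ⟨fun hL => hL.inNP,
    fun hL => R3_ok (R2_ok (randSat k hk K δ hK h1 hF)) L hL⟩

/-! ### The Cook-Levin theorem -/

theorem cook (L : Set (List Bool)) (hL : InNP L) :
    ∃ G : List Bool → CNF ℕ, NPC.Poly G ∧ ∀ x, x ∈ L ↔ 0 < satCount (G x) := by
  obtain ⟨V0, p, hV0, hL⟩ := hL
  set R : List Bool → List Bool → Bool := fun a c => ver V0 p a c with hRdef
  have hR : NPC.Poly (fun x : List Bool × List Bool => R x.1 x.2) := ver_poly hV0 p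
  have hS : SharpP (strFn fun a : List Bool => Nat.card {c : List Bool // R a c = true}) := by
    refine sharpP_typed R hR (Polynomial.C 4 * p + 1) ?_
    intro x c hc
    simp only [hRdef] at hc
    have h2 : c.length ≤ p.eval x.length := (ver_iff.1 hc).1
    have h3 := sz_listBool_le c
    have h4 : p.eval x.length ≤ p.eval (sz x) := eval_mono p (by
      have := length_lt_sz x
      omega)
    simp only [Polynomial.eval_add, Polynomial.eval_mul, Polynomial.eval_C, Polynomial.eval_one]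
    omega
  obtain ⟨V, pf, hV, hVf⟩ := hS
  obtain ⟨G, hG, hGf⟩ := parsimonious hV pf
  have hGp : NPC.Poly G := PC.comp hG pc_raw
  refine ⟨fun x => G (bits x), hGp.comp bits_poly, ?_⟩
  intro x
  have h1 : satCount (G (bits x)) = Nat.card {c : List Bool // R x c = true} := by
    rw [hGf, ← hVf, strFn_bits]
  show x ∈ L ↔ 0 < satCount (G (bits x))
  rw [h1]
  have hfin : Finite {c : List Bool // R x c = true} := by
    refine Set.Finite.to_subtype ?_
    refine (List.finite_length_le Bool (p.eval x.length)).subset fun w hw => ?_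
    exact (ver_iff.1 hw).1
  rw [Nat.card_pos_iff, hL]
  constructor
  · rintro ⟨w, h2, h3⟩
    exact ⟨⟨w, ver_iff.2 ⟨h2, h3⟩⟩, hfin⟩
  · rintro ⟨⟨w, h2⟩, _⟩
    exact ⟨w, ver_iff.1 h2⟩

/-- The randomised reduction with a gap. -/
theorem gap (k : ℕ) (hk : 2 ≤ k) (δ : ℝ) (h0 : 0 < δ) (h1 : δ ≤ 1) (L : Set (List Bool))
    (hL : InNP L) :
    ∃ (g : List Bool × List Bool → Inst) (T : List Bool → ℕ × ℕ) (A : List Bool → List Bool)
      (p : Polynomial ℕ), PolyTime A ∧ (∀ s, A (bits s) = bits (g s)) ∧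
      PolyTime (fun x => bits (T x)) ∧ ∀ x R, p.eval x.length ≤ R → 0 < (T x).2 ∧
        15 * 2 ^ R ≤ 16 * {r : List Bool | r.length = R ∧ Valid (g (x, r)) ∧
          (x ∈ L → (T x).1 ≤ (T x).2 * polya k (g (x, r))) ∧
          (x ∉ L → fac δ (g (x, r)).1.length * ((T x).2 * polya k (g (x, r))) <
            (T x).1)}.ncard := by
  obtain ⟨K, hK⟩ := exK δ h0
  obtain ⟨G, hG, hGL⟩ := cook L hL
  obtain ⟨q, hq⟩ := R3aux.UPoly.le ((upoly_cl k K).comp hG)
  have hgp : NPC.Poly (fun s : List Bool × List Bool => instF k (G s.1, un k K (G s.1), s.2)) :=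
    (poly_inst k K).comp (NPC.Poly.pair (hG.comp (NPC.Poly.fst NPC.Poly.id))
      (NPC.Poly.snd NPC.Poly.id))
  have hA' : NPC.Poly (fun x : List Bool =>
      instF k (G ((NPC.unbits (List Bool × List Bool) x).getD ([], [])).1,
        un k K (G ((NPC.unbits (List Bool × List Bool) x).getD ([], [])).1),
        ((NPC.unbits (List Bool × List Bool) x).getD ([], [])).2)) :=
    hgp.comp (NPC.Poly.optGetD NPC.poly_unbits (NPC.Poly.const ([], [])))
  refine ⟨fun s => instF k (G s.1, un k K (G s.1), s.2),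
    fun x => (XX k (G x) (un k K (G x)).length, 2 * EE k (G x) (un k K (G x)).length),
    _, q.comp (Polynomial.C 4 * Polynomial.X + 1), polyTime_bits hA', fun s => ?_,
    polyTime_bits (NPC.Poly.pair ((poly_X k K).comp hG)
      (NPC.Poly.mul (NPC.Poly.const 2) ((poly_E k K).comp hG))), fun x R hR => ⟨?_, ?_⟩⟩
  · simp only [NPC.unbits_bits, Option.getD_some]
  · exact Nat.mul_pos (by norm_num) (EE_pos k hk _ _)
  · have hcl : clF k (G x, un k K (G x)) ≤ R := by
      refine (hq x).trans (le_trans ?_ hR)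
      rw [Polynomial.eval_comp]
      refine eval_mono q ?_
      have h3 := sz_listBool_le x
      simp only [Polynomial.eval_add, Polynomial.eval_mul, Polynomial.eval_C, Polynomial.eval_X,
        Polynomial.eval_one]
      omega
    have hm := mainGap k hk (G x) (un k K (G x)) (one_le_un k K (G x)) R hcl
    refine hm.trans (Nat.mul_le_mul_left _ (Set.ncard_le_ncard ?_
      ((List.finite_length_eq Bool _).subset fun r hr => hr.1)))
    rintro r ⟨hr, hp, hg3, hg4⟩
    refine ⟨hr, valid_of_pos hp, fun hx => hg3 ((hGL x).1 hx), fun hx => ?_⟩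
    have h5 := hg4 (fun h => hx ((hGL x).2 h))
    have h6 := fac_le k K δ hK h1 (G x) r
    have h7 : (un k K (G x)).length = 2 * N1 k K (vts (G x)).length + 4 := by
      rw [un_len]; unfold N2; rfl
    have h8 : (2 : ℝ) ^ (un k K (G x)).length =
        16 * (2 ^ N1 k K (vts (G x)).length * 2 ^ N1 k K (vts (G x)).length) := by
      rw [h7, pow_add, two_mul, pow_add]
      ring
    have h9 : (2 : ℝ) ^ (un k K (G x)).length * ((EE k (G x) (un k K (G x)).length : ℕ) : ℝ) *
        ((polya k (instF k (G x, un k K (G x), r)) : ℕ) : ℝ) ≤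
        ((XX k (G x) (un k K (G x)).length : ℕ) : ℝ) := by
      exact_mod_cast h5
    rw [h8] at h9
    have hE : (0 : ℝ) < ((EE k (G x) (un k K (G x)).length : ℕ) : ℝ) := by
      exact_mod_cast EE_pos k hk _ _
    have hv : (0 : ℝ) < ((polya k (instF k (G x, un k K (G x), r)) : ℕ) : ℝ) := by
      exact_mod_cast hp
    show fac δ (instF k (G x, un k K (G x), r)).1.length *
      (((2 * EE k (G x) (un k K (G x)).length : ℕ) : ℝ) *
        ((polya k (instF k (G x, un k K (G x), r)) : ℕ) : ℝ)) <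
      ((XX k (G x) (un k K (G x)).length : ℕ) : ℝ)
    push_cast
    set E : ℝ := ((EE k (G x) (un k K (G x)).length : ℕ) : ℝ)
    set v : ℝ := ((polya k (instF k (G x, un k K (G x), r)) : ℕ) : ℝ)
    set w : ℝ := 2 ^ N1 k K (vts (G x)).length with hw
    have hw1 : 1 ≤ w := one_le_pow₀ (by norm_num)
    have hEv : 0 < E * v := mul_pos hE hv
    have h10 : fac δ (instF k (G x, un k K (G x), r)).1.length * (2 * E * v) ≤
        w * (2 * E * v) := mul_le_mul_of_nonneg_right h6 (by positivity)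
    have h11 : w * (E * v) ≤ w * w * (E * v) := by
      refine mul_le_mul_of_nonneg_right ?_ hEv.le
      nlinarith
    have h12 : 0 < w * w * (E * v) := by positivity
    nlinarith

/-! ### An FPRAS is an approximation within a large factor -/

theorem two_le_fac (δ : ℝ) (h1 : δ ≤ 1) (n : ℕ) (hn : 1 ≤ n) : 2 ≤ fac δ n := by
  unfold fac
  have h2 : (1 : ℝ) ≤ (n : ℝ) ^ (1 - δ) :=
    Real.one_le_rpow (by exact_mod_cast hn) (by linarith)
  calc (2 : ℝ) = 2 ^ (1 : ℝ) := (Real.rpow_one 2).symm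
    _ ≤ 2 ^ ((n : ℝ) ^ (1 - δ)) := Real.rpow_le_rpow_of_exponent_le (by norm_num) h2

theorem exp_half : Real.exp (1 / 2) ≤ 2 := by
  have h1 : Real.exp (1 / 2) ^ 2 = Real.exp 1 := by
    rw [← Real.exp_nat_mul]
    norm_num
  have h2 := Real.exp_one_lt_d9
  nlinarith [Real.exp_pos (1 / 2 : ℝ)]

open R1aux in
theorem of_fpras (δ : ℝ) (h1 : δ ≤ 1) (f : Inst → ℕ) (h : HasFPRAS (strFn f)) :
    HasApprox f (fac δ) := by
  obtain ⟨F, A, p, hA, hAF, hF⟩ := h
  have hFp : NPC.Poly F := poly_of_machine hA hAF (0, 0)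
  have hF' : NPC.Poly (fun s : Inst × List Bool => F (bits s.1, 2, s.2)) :=
    hFp.comp (NPC.Poly.pair (bits_poly.comp (NPC.Poly.fst NPC.Poly.id))
      (NPC.Poly.pair (NPC.Poly.const 2) (NPC.Poly.snd NPC.Poly.id)))
  have hA' : NPC.Poly (fun x : List Bool =>
      F (bits ((NPC.unbits (Inst × List Bool) x).getD (([], []), [])).1, 2,
        ((NPC.unbits (Inst × List Bool) x).getD (([], []), [])).2)) :=
    hF'.comp (NPC.Poly.optGetD NPC.poly_unbits (NPC.Poly.const (([], []), [])))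
  refine ⟨fun s => F (bits s.1, 2, s.2), _, p.comp (Polynomial.X + 2), polyTime_bits hA',
    fun s => ?_, fun I _ hn => ?_⟩
  · simp only [NPC.unbits_bits, Option.getD_some]
  · have h2 := hF (bits I) 2 le_rfl
    have e : (p.comp (Polynomial.X + 2)).eval (bits I).length = p.eval ((bits I).length + 2) := by
      simp [Polynomial.eval_comp]
    rw [e]
    refine h2.trans (Nat.mul_le_mul_left _ (Set.ncard_le_ncard ?_ ?_))
    · rintro r ⟨hr, h3, h4⟩
      refine ⟨hr, ?_⟩
      rw [strFn_bits] at h3 h4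
      have h5 := two_le_fac δ h1 _ hn
      have h6 : (0 : ℝ) ≤ (f I : ℝ) := Nat.cast_nonneg _
      have h7 := exp_half
      push_cast at h3 h4
      rw [Real.exp_neg] at h3
      have h8 := Real.exp_pos (1 / 2 : ℝ)
      constructor
      · refine le_trans ?_ h3
        rw [div_eq_mul_inv, mul_comm]
        refine mul_le_mul_of_nonneg_right ?_ h6
        exact inv_anti₀ h8 (h7.trans h5)
      · exact h4.trans (mul_le_mul_of_nonneg_right (h7.trans h5) h6)
    · exact (List.finite_length_eq Bool (p.eval ((bits I).length + 2))).subset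
        fun r hr => hr.1

end Pool.Agent.Y607.PY
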